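import Mathlib

/-!
# Regular triangulation of a cell of `(∂Δ³)³` (module TX-G1 of `MP_a50e43_gt`)
-/

set_option autoImplicit false

noncomputable section
namespace Pool.Agent.helper73.TC

namespace G1

abbrev E : Type := Fin 3 → Fin 4 → ℝ

/-- the linear functional with coefficients `a` -/
def lin (a : E) : E →ₗ[ℝ] ℝ where
  toFun z := ∑ i, ∑ j, a i j * z i j
  map_add' x y := by
    simp only [Pi.add_apply, mul_add, Finset.sum_add_distrib]
  map_smul' c x := by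
    simp only [Pi.smul_apply, smul_eq_mul, RingHom.id_apply, Finset.mul_sum]
    refine Finset.sum_congr rfl fun i _ => Finset.sum_congr rfl fun j _ => ?_
    ring

lemma lin_apply (a z : E) : lin a z = ∑ i, ∑ j, a i j * z i j := rfl

/-- a coordinate -/
def crd (i : Fin 3) (j : Fin 4) : E →ₗ[ℝ] ℝ where
  toFun z := z i j
  map_add' _ _ := rfl
  map_smul' _ _ := rfl

/-- the linear hull of the cell `o` -/
def U (o : Fin 3 → Fin 4) : Submodule ℝ E where
  carrier := {u | (∀ i, u i (o i) = 0) ∧ ∀ i, ∑ j, u i j = ∑ j, u 0 j}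
  add_mem' := by
    rintro x y ⟨hx, hx'⟩ ⟨hy, hy'⟩
    refine ⟨fun i => by simp [hx i, hy i], fun i => ?_⟩
    simp only [Pi.add_apply, Finset.sum_add_distrib, hx' i, hy' i]
  zero_mem' := by simp
  smul_mem' := by
    rintro c x ⟨hx, hx'⟩
    refine ⟨fun i => by simp [hx i], fun i => ?_⟩
    simp only [Pi.smul_apply, smul_eq_mul, ← Finset.mul_sum, hx' i]

/-- coordinates on `U o` -/
def co (o : Fin 3 → Fin 4) : U o →ₗ[ℝ] (Fin 7 → ℝ) where
  toFun u := ![∑ j, u.1 0 j, u.1 0 (o 0 + 1), u.1 0 (o 0 + 2), u.1 1 (o 1 + 1), u.1 1 (o 1 + 2),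
    u.1 2 (o 2 + 1), u.1 2 (o 2 + 2)]
  map_add' x y := by
    ext k
    fin_cases k <;> simp [Finset.sum_add_distrib]
  map_smul' c x := by
    ext k
    fin_cases k <;> simp [Finset.mul_sum]

lemma row_zero (a : Fin 4) (f : Fin 4 → ℝ) (h0 : f a = 0) (h1 : f (a + 1) = 0)
    (h2 : f (a + 2) = 0) (hs : ∑ j, f j = 0) : ∀ j, f j = 0 := by
  rw [Fin.sum_univ_four] at hs
  intro j
  fin_cases a <;> simp at h0 h1 h2 <;> fin_cases j <;> simp <;> linarith

lemma co_inj (o : Fin 3 → Fin 4) : Function.Injective (co o) := by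
  rw [← LinearMap.ker_eq_bot, LinearMap.ker_eq_bot']
  rintro ⟨u, hu, hu'⟩ h
  have h0 : ∑ j, u 0 j = 0 := congrFun h 0
  have key : ∀ i, u i (o i + 1) = 0 → u i (o i + 2) = 0 → ∀ j, u i j = 0 := fun i a b =>
    row_zero (o i) (u i) (hu i) a b (by rw [hu' i, h0])
  have e0 := key 0 (congrFun h 1) (congrFun h 2)
  have e1 := key 1 (congrFun h 3) (congrFun h 4)
  have e2 := key 2 (congrFun h 5) (congrFun h 6)
  apply Subtype.ext
  funext i j
  fin_cases i
  · exact e0 j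
  · exact e1 j
  · exact e2 j

lemma finrank_U (o : Fin 3 → Fin 4) : Module.finrank ℝ (U o) ≤ 7 := by
  have := LinearMap.finrank_le_finrank_of_injective (co_inj o)
  simpa using this

end G1

open G1 in
theorem cell_lemma {V : Type} [Fintype V] [DecidableEq V]
    (P : V → Fin 3 → Fin 4 → ℝ) (hP0 : ∀ v i j, 0 ≤ P v i j) (hP1 : ∀ v i, ∑ j, P v i j = 1)
    (o : Fin 3 → Fin 4) (T : Finset (Finset V)) (hT : T.Nonempty)
    (h : V → ℝ) (l : Finset V → Fin 3 → Fin 4 → ℝ)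
    (hcard : ∀ σ ∈ T, σ.card = 7)
    (hcell : ∀ σ ∈ T, ∀ v ∈ σ, ∀ i, P v i (o i) = 0)
    (heq : ∀ σ ∈ T, ∀ v ∈ σ, ∑ i, ∑ j, l σ i j * P v i j = h v)
    (hlt : ∀ σ ∈ T, ∀ v, v ∉ σ → (∀ i, P v i (o i) = 0) → ∑ i, ∑ j, l σ i j * P v i j < h v)
    (hridge : ∀ σ ∈ T, ∀ w ∈ σ,
      (∃ i j, (∀ v ∈ σ, v ≠ w → P v i j = 0) ∧ 0 < P w i j) ∨
      ∃ τ ∈ T, σ.erase w ⊆ τ ∧ w ∉ τ) :
    ∀ z : Fin 3 → Fin 4 → ℝ, (∀ i j, 0 ≤ z i j) → (∀ i, ∑ j, z i j = 1) → (∀ i, z i (o i) = 0) →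
      ∃! x : V → ℝ, (∀ v, 0 ≤ x v) ∧ ∑ v, x v = 1 ∧ (∃ σ ∈ T, ∀ v, x v ≠ 0 → v ∈ σ) ∧
        ∀ i j, ∑ v, x v * P v i j = z i j := by
  intro z hz0 hz1 hzo
  -- the functionals of the facets
  have hD : ∀ σ ∈ T, ∀ w ∈ σ, ∃ D : E →ₗ[ℝ] ℝ, (∀ v ∈ σ, v ≠ w → D (P v) = 0) ∧ 0 < D (P w) ∧
      ((∀ τ ∈ T, lin (l τ) z ≤ lin (l σ) z) → 0 ≤ D z) := by
    intro σ hσ w hw
    rcases hridge σ hσ w hw with ⟨i, j, h1, h2⟩ | ⟨τ, hτ, h1, h2⟩
    · exact ⟨crd i j, fun v hv hvw => h1 v hv hvw, h2, fun _ => hz0 i j⟩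
    · refine ⟨lin (l σ) - lin (l τ), fun v hv hvw => ?_, ?_, fun hmax => ?_⟩
      · have hvτ : v ∈ τ := h1 (Finset.mem_erase.2 ⟨hvw, hv⟩)
        rw [LinearMap.sub_apply, lin_apply, lin_apply, heq σ hσ v hv, heq τ hτ v hvτ, sub_self]
      · rw [LinearMap.sub_apply, lin_apply, lin_apply, heq σ hσ w hw]
        exact sub_pos.2 (hlt τ hτ w h2 (hcell σ hσ w hw))
      · rw [LinearMap.sub_apply]
        exact sub_nonneg.2 (hmax τ hτ)
  -- value of a functional on a combination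
  have hcomb : ∀ (D : E →ₗ[ℝ] ℝ) (x : V → ℝ), (∀ i j, ∑ v, x v * P v i j = z i j) →
      D z = ∑ v, x v * D (P v) := by
    intro D x hx
    have e : z = ∑ v, x v • P v := by
      funext i j
      rw [← hx i j]
      simp only [Finset.sum_apply, Pi.smul_apply, smul_eq_mul]
    rw [e, map_sum]
    refine Finset.sum_congr rfl fun v _ => ?_
    rw [map_smul, smul_eq_mul]
  have hval : ∀ (D : E →ₗ[ℝ] ℝ) (σ : Finset V) (w : V) (x : V → ℝ), (∀ v, x v ≠ 0 → v ∈ σ) →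
      (∀ v ∈ σ, v ≠ w → D (P v) = 0) → ∑ v, x v * D (P v) = x w * D (P w) := by
    intro D σ w x hx hD
    refine Finset.sum_eq_single w (fun v _ hvw => ?_) (fun hw => absurd (Finset.mem_univ w) hw)
    by_cases hxv : x v = 0
    · rw [hxv, zero_mul]
    · rw [hD v (hx v hxv) hvw, mul_zero]
  -- existence
  obtain ⟨σ, hσ, hmax⟩ := Finset.exists_max_image T (fun σ => lin (l σ) z) hT
  have hex : ∃ x : V → ℝ, (∀ v, x v ≠ 0 → v ∈ σ) ∧ ∀ i j, ∑ v, x v * P v i j = z i j := by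
    let b : σ → U o := fun v => ⟨P v, hcell σ hσ v v.2, fun i => by rw [hP1, hP1]⟩
    have hli : LinearIndependent ℝ b := by
      rw [Fintype.linearIndependent_iff]
      intro c hc w
      obtain ⟨D, hD1, hD2, -⟩ := hD σ hσ w w.2
      have h1 := congrArg (fun u : U o => D u.1) hc
      simp only [Submodule.coe_sum, Submodule.coe_smul, map_sum, map_smul, smul_eq_mul,
        Submodule.coe_zero, map_zero] at h1
      rw [Finset.sum_eq_single w (fun v _ hvw => by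
        have : D (b v).1 = 0 := hD1 v v.2 (fun e => hvw (Subtype.ext e))
        rw [this, mul_zero]) (fun hw => absurd (Finset.mem_univ w) hw)] at h1
      exact (mul_eq_zero.1 h1).resolve_right hD2.ne'
    have hc : Fintype.card σ = 7 := by rw [Fintype.card_coe, hcard σ hσ]
    have hfr : Fintype.card σ = Module.finrank ℝ (U o) :=
      le_antisymm hli.fintype_card_le_finrank (by rw [hc]; exact finrank_U o)
    have hne : Nonempty σ := Fintype.card_pos_iff.1 (by rw [hc]; norm_num)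
    have hspan := hli.span_eq_top_of_card_eq_finrank hfr
    have hzU : (⟨z, hzo, fun i => by rw [hz1, hz1]⟩ : U o) ∈ Submodule.span ℝ (Set.range b) := by
      rw [hspan]; trivial
    obtain ⟨c, hc'⟩ := (Submodule.mem_span_range_iff_exists_fun ℝ).1 hzU
    refine ⟨fun v => if hv : v ∈ σ then c ⟨v, hv⟩ else 0, fun v hv => ?_, fun i j => ?_⟩
    · by_contra hvσ
      simp only [dif_neg hvσ] at hv
      exact hv rfl
    · have h1 := congrArg (fun u : U o => u.1 i j) hc'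
      simp only [Submodule.coe_sum, Submodule.coe_smul, Finset.sum_apply, Pi.smul_apply,
        smul_eq_mul] at h1
      rw [← h1, ← Finset.sum_subset (Finset.subset_univ σ) (fun v _ hv => by
        simp only [dif_neg hv, zero_mul]), ← Finset.sum_coe_sort]
      refine Finset.sum_congr rfl fun v _ => ?_
      simp only [dif_pos v.2, b]
  obtain ⟨x, hxs, hxz⟩ := hex
  have hx0 : ∀ v, 0 ≤ x v := by
    intro w
    by_cases hw : w ∈ σ
    · obtain ⟨D, hD1, hD2, hD3⟩ := hD σ hσ w hw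
      have h1 := hD3 hmax
      rw [hcomb D x hxz, hval D σ w x hxs hD1] at h1
      exact nonneg_of_mul_nonneg_left h1 hD2
    · have : x w = 0 := by
        by_contra h1
        exact hw (hxs w h1)
      rw [this]
  have hsum1 : ∀ y : V → ℝ, (∀ i j, ∑ v, y v * P v i j = z i j) → ∑ v, y v = 1 := by
    intro y hy
    have h1 : ∑ j, ∑ v, y v * P v 0 j = 1 := by
      rw [← hz1 0]
      exact Finset.sum_congr rfl fun j _ => hy 0 j
    rw [Finset.sum_comm] at h1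
    rw [← h1]
    refine Finset.sum_congr rfl fun v _ => ?_
    rw [← Finset.mul_sum, hP1, mul_one]
  refine ⟨x, ⟨hx0, hsum1 x hxz, ⟨σ, hσ, hxs⟩, hxz⟩, ?_⟩
  rintro y ⟨hy0, -, ⟨τ, hτ, hys⟩, hyz⟩
  -- vertices in the support are in the cell
  have hcl : ∀ y : V → ℝ, (∀ v, 0 ≤ y v) → (∀ i j, ∑ v, y v * P v i j = z i j) →
      ∀ v, y v ≠ 0 → ∀ i, P v i (o i) = 0 := by
    intro y hy0 hyz v hv i
    have h1 : ∑ v, y v * P v i (o i) = 0 := by rw [hyz i (o i), hzo i]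
    rw [Finset.sum_eq_zero_iff_of_nonneg
      (fun v _ => mul_nonneg (hy0 v) (hP0 v i (o i)))] at h1
    exact (mul_eq_zero.1 (h1 v (Finset.mem_univ v))).resolve_left hv
  have hle : ∀ ρ ∈ T, ∀ y : V → ℝ, (∀ v, 0 ≤ y v) → (∀ i j, ∑ v, y v * P v i j = z i j) →
      ∀ v, y v * lin (l ρ) (P v) ≤ y v * h v := by
    intro ρ hρ y hy0 hyz v
    by_cases hv : y v = 0
    · rw [hv, zero_mul, zero_mul]
    · refine mul_le_mul_of_nonneg_left ?_ (hy0 v)
      by_cases hvρ : v ∈ ρ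
      · exact (heq ρ hρ v hvρ).le
      · exact (hlt ρ hρ v hvρ (hcl y hy0 hyz v hv)).le
  have heq' : ∀ ρ ∈ T, ∀ y : V → ℝ, (∀ v, y v ≠ 0 → v ∈ ρ) →
      (∀ i j, ∑ v, y v * P v i j = z i j) → lin (l ρ) z = ∑ v, y v * h v := by
    intro ρ hρ y hys hyz
    rw [hcomb _ y hyz]
    refine Finset.sum_congr rfl fun v _ => ?_
    by_cases hv : y v = 0
    · rw [hv, zero_mul, zero_mul]
    · rw [lin_apply, heq ρ hρ v (hys v hv)]
  have h1 : ∑ v, x v * h v ≤ ∑ v, y v * h v := by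
    rw [← heq' σ hσ x hxs hxz, hcomb _ y hyz]
    exact Finset.sum_le_sum fun v _ => hle σ hσ y hy0 hyz v
  have h2 : ∑ v, y v * h v ≤ ∑ v, x v * h v := by
    rw [← heq' τ hτ y hys hyz, hcomb _ x hxz]
    exact Finset.sum_le_sum fun v _ => hle τ hτ x hx0 hxz v
  have h3 : ∑ v, y v * lin (l σ) (P v) = ∑ v, y v * h v := by
    rw [← hcomb _ y hyz, heq' σ hσ x hxs hxz]
    exact le_antisymm h1 h2
  have h4 := (Finset.sum_eq_sum_iff_of_le (fun v _ => hle σ hσ y hy0 hyz v)).1 h3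
  have hyσ : ∀ v, y v ≠ 0 → v ∈ σ := by
    intro v hv
    by_contra hvσ
    have h5 := h4 v (Finset.mem_univ v)
    have h6 := mul_left_cancel₀ hv h5
    have h7 := hlt σ hσ v hvσ (hcl y hy0 hyz v hv)
    rw [lin_apply] at h6
    rw [h6] at h7
    exact lt_irrefl _ h7
  funext w
  by_cases hw : w ∈ σ
  · obtain ⟨D, hD1, hD2, -⟩ := hD σ hσ w hw
    have e1 := hcomb D x hxz
    have e2 := hcomb D y hyz
    rw [hval D σ w x hxs hD1] at e1
    rw [hval D σ w y hyσ hD1] at e2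
    exact mul_right_cancel₀ hD2.ne' (e2.symm.trans e1)
  · have e1 : x w = 0 := by
      by_contra h5
      exact hw (hxs w h5)
    have e2 : y w = 0 := by
      by_contra h5
      exact hw (hyσ w h5)
    rw [e1, e2]

end Pool.Agent.helper73.TC
end
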