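import Pool.Agent.helper73.TC.YDefs
import Pool.Agent.helper73.TC.Data.PaT1
import Pool.Agent.helper74.TC.Refl

/-!
# The complex on 20 vertices is given by its nonfaces

Used for `MP_a50e43_gt` (tight polyhedral embedding of complex projective 3-space).
-/

set_option autoImplicit false
open Topology

noncomputable section
namespace Pool.Agent.helper73.TC
namespace Y3

theorem allL_iff (f : ℕ → Bool) (L : List ℕ) : Pa.allL f L = true ↔ ∀ m ∈ L, f m = true :=
  Ce.lrec_iff f L

theorem anySub_iff (m : ℕ) (P : List ℕ) :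
    Pa.anySub m P = true ↔ ∃ p ∈ P, Nat.land p m = p := by
  induction P with
  | nil => simp [Pa.anySub]
  | cons p P ih =>
    have h : Pa.anySub m (p :: P) =
      @Bool.rec (fun _ => Bool) (Pa.anySub m P) true (Nat.beq (Nat.land p m) p) := rfl
    rw [h]
    cases hb : Nat.beq (Nat.land p m) p with
    | true =>
      have := (Ce.beq_iff _ _).mp hb
      simp only [true_iff]
      exact ⟨p, by simp, this⟩
    | false =>
      have hne : Nat.land p m ≠ p := fun h' => by
        rw [(Ce.beq_iff _ _).mpr h'] at hb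
        exact Bool.noConfusion hb
      show Pa.anySub m P = true ↔ _
      rw [ih]
      constructor
      · rintro ⟨q, hq, h2⟩
        exact ⟨q, by simp [hq], h2⟩
      · rintro ⟨q, hq, h2⟩
        rcases List.mem_cons.mp hq with rfl | hq
        · exact absurd h2 hne
        · exact ⟨q, hq, h2⟩

theorem memL_iff (m : ℕ) (L : List ℕ) : Pa.memL m L = true ↔ m ∈ L := by
  induction L with
  | nil => simp [Pa.memL]
  | cons p P ih =>
    have h : Pa.memL m (p :: P) =
      @Bool.rec (fun _ => Bool) (Pa.memL m P) true (Nat.beq p m) := rfl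
    rw [h]
    cases hb : Nat.beq p m with
    | true =>
      have := (Ce.beq_iff _ _).mp hb
      simp [this]
    | false =>
      have hne : p ≠ m := fun h' => by
        rw [(Ce.beq_iff _ _).mpr h'] at hb
        exact Bool.noConfusion hb
      show Pa.memL m P = true ↔ _
      rw [ih]
      constructor
      · intro h; simp [h]
      · intro h
        rcases List.mem_cons.mp h with rfl | h
        · exact absurd rfl hne
        · exact h

theorem keepV_spec (x : ℕ) (L acc : List ℕ) (k : List ℕ → Bool) (h : Pa.keepV x L acc k = true) :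
    ∃ L', k L' = true ∧ ∀ m, m ∈ L' ↔ m ∈ acc ∨ (m ∈ L ∧ m.testBit x = true) := by
  induction L generalizing acc with
  | nil => exact ⟨acc, h, by simp⟩
  | cons p P ih =>
    have h0 : Pa.keepV x (p :: P) acc k =
      @Bool.rec (fun _ => Bool) (Pa.keepV x P acc k) (Pa.keepV x P (p :: acc) k)
        (Nat.testBit p x) := rfl
    rw [h0] at h
    cases hb : Nat.testBit p x with
    | true =>
      rw [hb] at h
      obtain ⟨L', h1, h2⟩ := ih (p :: acc) h
      refine ⟨L', h1, fun m => ?_⟩
      rw [h2 m]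
      simp only [List.mem_cons]
      constructor
      · rintro ((rfl | h3) | ⟨h3, h4⟩)
        · exact Or.inr ⟨Or.inl rfl, hb⟩
        · exact Or.inl h3
        · exact Or.inr ⟨Or.inr h3, h4⟩
      · rintro (h3 | ⟨(rfl | h3), h4⟩)
        · exact Or.inl (Or.inr h3)
        · exact Or.inl (Or.inl rfl)
        · exact Or.inr ⟨h3, h4⟩
    | false =>
      rw [hb] at h
      obtain ⟨L', h1, h2⟩ := ih acc h
      refine ⟨L', h1, fun m => ?_⟩
      rw [h2 m]
      simp only [List.mem_cons]
      constructor
      · rintro (h3 | ⟨h3, h4⟩)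
        · exact Or.inl h3
        · exact Or.inr ⟨Or.inr h3, h4⟩
      · rintro (h3 | ⟨(rfl | h3), h4⟩)
        · exact Or.inl h3
        · rw [hb] at h4; exact Bool.noConfusion h4
        · exact Or.inr ⟨h3, h4⟩

theorem land_sub {p m : ℕ} (h : Nat.land p m = p) (i : ℕ) (hi : p.testBit i = true) :
    m.testBit i = true := by
  have h' : p &&& m = p := h
  have h2 : (p &&& m).testBit i = true := by rw [h']; exact hi
  rw [Nat.testBit_land, Bool.and_eq_true] at h2
  exact h2.2

theorem testBit_add_pow (s x : ℕ) (hs : 2 ^ (x + 1) ∣ s) (i : ℕ) :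
    (s + 2 ^ x).testBit i = true ↔ s.testBit i = true ∨ i = x := by
  obtain ⟨q, rfl⟩ := hs
  rw [Nat.two_pow_add_eq_or_of_lt (Nat.pow_lt_pow_right (by norm_num) (Nat.lt_succ_self x)) q,
    Nat.testBit_lor, Bool.or_eq_true, Nat.testBit_two_pow, decide_eq_true_eq, eq_comm (a := x)]

/-- soundness of the enumeration of all sets without nonfaces -/
theorem chkGen_sound (N : List ℕ) (n : ℕ) : ∀ (s : ℕ) (L : List ℕ), Pa.chkGen N n s L = true →
    L ≠ [] → 2 ^ n ∣ s → ∀ T : Set ℕ, (∀ i ∈ T, i < n) →
    (∀ p ∈ N, ¬ ∀ i, p.testBit i = true → (s.testBit i = true ∨ i ∈ T)) →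
    ∃ m ∈ L, ∀ i ∈ T, m.testBit i = true := by
  induction n with
  | zero =>
    intro s L _ hL _ T hT _
    obtain ⟨m, hm⟩ := List.exists_mem_of_ne_nil L hL
    exact ⟨m, hm, fun i hi => absurd (hT i hi) (Nat.not_lt_zero i)⟩
  | succ x ih =>
    intro s L h hL hs T hT hN
    have h0 : Pa.chkGen N (x + 1) s L =
      @Bool.rec (fun _ => Bool) false
      (Pa.keepV x L [] fun L' => @List.rec Nat (fun _ => Bool) (Pa.hasSub N (Nat.add s (Nat.pow 2 x)))
        (fun _ _ _ => Pa.chkGen N x (Nat.add s (Nat.pow 2 x)) L') L')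
      (Pa.chkGen N x s L) := rfl
    rw [h0, Ce.brec_false_iff] at h
    obtain ⟨h1, h2⟩ := h
    have hsx : 2 ^ x ∣ s := (pow_dvd_pow 2 (Nat.le_succ x)).trans hs
    by_cases hx : x ∈ T
    · obtain ⟨L', h3, h4⟩ := keepV_spec x L [] _ h2
      have hbit := testBit_add_pow s x hs
      cases L' with
      | nil =>
        exfalso
        have h5 : Pa.anySub (s + 2 ^ x) N = true := h3
        obtain ⟨p, hp, h6⟩ := (anySub_iff _ _).mp h5
        refine hN p hp fun i hi => ?_
        rcases (hbit i).mp (land_sub h6 i hi) with h7 | rfl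
        · exact Or.inl h7
        · exact Or.inr hx
      | cons m0 L'' =>
        have h5 : Pa.chkGen N x (s + 2 ^ x) (m0 :: L'') = true := h3
        obtain ⟨m, hm, h6⟩ := ih (s + 2 ^ x) (m0 :: L'') h5 (List.cons_ne_nil _ _)
          ((Nat.dvd_add_iff_right hsx).mp dvd_rfl) {i | i ∈ T ∧ i ≠ x}
          (fun i hi => lt_of_le_of_ne (Nat.lt_succ_iff.mp (hT i hi.1)) hi.2)
          (fun p hp hall => hN p hp fun i hi => by
            rcases hall i hi with h7 | h7
            · rcases (hbit i).mp h7 with h8 | rfl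
              · exact Or.inl h8
              · exact Or.inr hx
            · exact Or.inr h7.1)
        have hm2 : m ∈ L ∧ m.testBit x = true := by
          have := (h4 m).mp hm
          simpa using this
        refine ⟨m, hm2.1, fun i hi => ?_⟩
        by_cases hix : i = x
        · rw [hix]; exact hm2.2
        · exact h6 i ⟨hi, hix⟩
    · exact ih s L h1 hL hsx T
        (fun i hi => lt_of_le_of_ne (Nat.lt_succ_iff.mp (hT i hi)) (fun h => hx (h ▸ hi))) hN

theorem bitA : ∀ c < 10, Nat.testBit 0xAAAAA (2 * c + 1) = true := by decide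

theorem bit5 : ∀ c < 10, Nat.testBit 0x55555 (2 * c) = true := by decide

theorem anti_testBit (m : ℕ) (j : Fin 20) (h : m.testBit j.1 = true) :
    (Pa.anti m).testBit (anti j).1 = true := by
  have h0 : Pa.anti m = ((m <<< 1) &&& 0xAAAAA) ||| ((m >>> 1) &&& 0x55555) := rfl
  rw [h0, Nat.testBit_lor, Nat.testBit_land, Nat.testBit_land, Nat.testBit_shiftLeft,
    Nat.testBit_shiftRight]
  rcases Nat.even_or_odd' j.1 with ⟨c, hc | hc⟩
  · have h1 : (anti j).1 = 2 * c + 1 := by simp only [anti]; omega
    have hc2 : c < 10 := by omega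
    rw [h1]
    have h2 : m.testBit (2 * c + 1 - 1) = true := by
      rw [Nat.add_sub_cancel, ← hc]; exact h
    rw [h2]
    have h3 := bitA c hc2
    simp [h3]
  · have h1 : (anti j).1 = 2 * c := by simp only [anti]; omega
    have hc2 : c < 10 := by omega
    rw [h1]
    have h2 : m.testBit (1 + 2 * c) = true := by
      rw [Nat.add_comm, ← hc]; exact h
    rw [h2]
    have h3 := bit5 c hc2
    simp [h3]

end Y3

open Y3 in
theorem K_eq : K = nfc 20 1048575 Pa.NK := by
  ext s
  constructor
  · rintro ⟨m, hm, hs⟩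
    refine ⟨fun i _ => ?_, fun p hp hall => ?_⟩
    · have : (1048575 : ℕ) = 2 ^ 20 - 1 := by norm_num
      rw [this, Nat.testBit_two_pow_sub_one]
      simp [i.2]
    · have h1 := (allL_iff _ _).mp Pa.t1_sep m hm
      have h2 := (allL_iff _ _).mp Pa.t1_ok p hp
      have h3 : p < 1048576 := by
        have := ((Ce.and_iff _ _).mp h2).1
        exact (Ce.blt_iff _ _).mp this
      have h4 : Pa.hasSub Pa.NK m = true := by
        refine (anySub_iff _ _).mpr ⟨p, hp, ?_⟩
        show p &&& m = p
        refine Nat.eq_of_testBit_eq fun i => ?_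
        rw [Nat.testBit_land]
        cases hpi : p.testBit i with
        | false => rfl
        | true =>
          have hi : i < 20 := by
            by_contra hcon
            rw [Nat.testBit_lt_two_pow (lt_of_lt_of_le (by simpa using h3)
              (Nat.pow_le_pow_right (n := 2) (by norm_num) (Nat.le_of_not_lt hcon)))] at hpi
            exact Bool.noConfusion hpi
          have := hs ⟨i, hi⟩ (hall ⟨i, hi⟩ hpi)
          simpa using this
      rw [(Ce.not_iff _).mp h1] at h4
      exact Bool.noConfusion h4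
  · rintro ⟨_, hs⟩
    obtain ⟨m, hm, h⟩ := chkGen_sound Pa.NK 20 0 Fl.K20 Pa.t1_gen (List.cons_ne_nil _ _)
      (dvd_zero _) {i | ∃ h : i < 20, (⟨i, h⟩ : Fin 20) ∈ s} (fun i hi => hi.1)
      (fun p hp hall => hs p hp fun i hi => by
        rcases hall i.1 hi with h | ⟨_, h⟩
        · simp at h
        · exact h)
    exact ⟨m, hm, fun i hi => h i.1 ⟨i.2, hi⟩⟩

open Y3 in
theorem K_anti (s : Finset (Fin 20)) (hs : s ∈ K) : s.image anti ∈ K := by
  obtain ⟨m, hm, h⟩ := hs
  refine ⟨Pa.anti m, ?_, fun i hi => ?_⟩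
  · exact (memL_iff _ _).mp ((allL_iff _ _).mp Pa.t1_J m hm)
  · obtain ⟨j, hj, rfl⟩ := Finset.mem_image.mp hi
    exact anti_testBit m j (h j hj)

end Pool.Agent.helper73.TC
end
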